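import Pool.Agent.W798.SP.Stm2
import Pool.Agent.W215.SP.CS
import Pool.Agent.W554.SP.GC

/-!
# Sum-product with exponent 226/169: the final row
-/

set_option autoImplicit false
set_option linter.unusedSectionVars false

open Finset
open scoped Classical Pointwise

namespace Pool.Agent.W612.SPY

open Pool.Agent.W904.AK Pool.Agent.W798.SP

lemma pos_mul {A : Finset ℝ} (hA : ∀ a ∈ A, 0 < a) : ∀ a ∈ A * A, 0 < a := by
  intro a ha
  obtain ⟨x, hx, y, hy, rfl⟩ := Finset.mem_mul.1 ha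
  exact mul_pos (hA x hx) (hA y hy)

/-- The ratios of products with many representations. -/
noncomputable def cls (A : Finset ℝ) (j : ℕ) : Finset ℝ :=
  ((A * A) / (A * A)).filter (fun x => 2 ^ j ≤ (fib (A * A) x).card)

/-- The bound for the size of a class. -/
def sz (P j : ℕ) : ℕ := P ^ 2 / 2 ^ j

lemma cls_card {A : Finset ℝ} (hA : ∀ a ∈ A, 0 < a) (j : ℕ) :
    (cls A j).card ≤ sz (A * A).card j := by
  unfold sz
  rw [Nat.le_div_iff_mul_le (by positivity)]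
  rw [← (Pool.Agent.W215.SP.main (A * A) (pos_mul hA)).2]
  calc (cls A j).card * 2 ^ j = ∑ x ∈ cls A j, 2 ^ j := by rw [Finset.sum_const, smul_eq_mul]
    _ ≤ ∑ x ∈ cls A j, (fib (A * A) x).card :=
      Finset.sum_le_sum fun x hx => (Finset.mem_filter.1 hx).2
    _ ≤ _ := Finset.sum_le_sum_of_subset (Finset.filter_subset _ _)

lemma card_le {A : Finset ℝ} (hA : ∀ a ∈ A, 0 < a) : A.card ≤ (A * A).card := by
  rcases A.eq_empty_or_nonempty with h | ⟨a, ha⟩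
  · rw [h]; simp
  · refine Finset.card_le_card_of_injOn (fun x => a * x)
      (fun x hx => Finset.mul_mem_mul ha hx) ?_
    intro x _ y _ hxy
    exact mul_left_cancel₀ (hA a ha).ne' hxy

lemma mem_cls {A : Finset ℝ} (hA : ∀ a ∈ A, 0 < a) {x : ℝ} (h : 1 ≤ (fib (A * A) x).card) :
    x ∈ cls A (Nat.log 2 (fib (A * A) x).card) := by
  refine Finset.mem_filter.2 ⟨?_, Nat.pow_log_le_self 2 (by omega)⟩
  obtain ⟨w, hw⟩ := Finset.card_pos.1 h
  obtain ⟨h1, h2⟩ := Finset.mem_filter.1 hw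
  refine Finset.mem_div.2 ⟨x * w, h2, w, h1, ?_⟩
  have := (pos_mul hA w h1).ne'
  field_simp

lemma fib_le (A : Finset ℝ) (x : ℝ) : (fib A x).card ≤ A.card := Finset.card_filter_le _ _

/-- The slope and the intercept. -/
noncomputable def lin (q : Fin 4 → ℝ) (t : ℝ × ℝ) : ℝ × ℝ :=
  (-((q 0 - q 3) / (q 1 - q 3)) * (t.1 / t.2), (q 2 - q 3) / (q 1 - q 3) / t.2)

/-- The set of lines. -/
noncomputable def LL (A : Finset ℝ) (q : (Fin 4 → ℝ) × (ℕ × ℕ)) : Finset (ℝ × ℝ) :=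
  if 2 ^ q.2.1 ≤ (A * A).card ∧ 2 ^ q.2.2 ≤ (A * A).card then
    ((A / A) ×ˢ (A / A)).image (lin q.1) else ∅

lemma le_div' {P j : ℕ} (h : 2 ^ j ≤ P) : P ≤ P ^ 2 / 2 ^ j := by
  rw [Nat.le_div_iff_mul_le (by positivity), sq]
  exact Nat.mul_le_mul_left _ h

lemma LL_card {A : Finset ℝ} (hA : ∀ a ∈ A, 0 < a) (q : (Fin 4 → ℝ) × (ℕ × ℕ)) :
    (LL A q).card ≤ (sz (A * A).card q.2.1 * sz (A * A).card q.2.2) ^ 2 := by
  unfold LL sz
  split_ifs with h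
  · have h1 := le_div' h.1
    have h2 := le_div' h.2
    have h3 : (A / A).card ≤ (A * A).card * (A * A).card :=
      Finset.card_div_le.trans (Nat.mul_le_mul (card_le hA) (card_le hA))
    calc (((A / A) ×ˢ (A / A)).image (lin q.1)).card ≤ ((A / A) ×ˢ (A / A)).card :=
          Finset.card_image_le
      _ = (A / A).card * (A / A).card := Finset.card_product _ _
      _ ≤ ((A * A).card * (A * A).card) * ((A * A).card * (A * A).card) := Nat.mul_le_mul h3 h3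
      _ = ((A * A).card * (A * A).card) ^ 2 := (sq _).symm
      _ ≤ _ := Nat.pow_le_pow_left (Nat.mul_le_mul h1 h2) 2
  · simp

/-- The logarithm of the size of a class. -/
lemma log_size {P r : ℕ} (h1 : 1 ≤ r) (h2 : r ≤ P) :
    Real.log (sz P (Nat.log 2 r) : ℝ) ≤ 2 * Real.log P - Real.log r + Real.log 2 := by
  unfold sz
  have hj : 2 ^ Nat.log 2 r ≤ r := Nat.pow_log_le_self 2 (by omega)
  have hP : (0 : ℝ) < P := by
    have : 0 < P := by omega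
    exact_mod_cast this
  have hr : (0 : ℝ) < r := by exact_mod_cast h1
  have h3 : P ≤ P ^ 2 / 2 ^ Nat.log 2 r := le_div' (hj.trans h2)
  have h4 : (0 : ℝ) < ((P ^ 2 / 2 ^ Nat.log 2 r : ℕ) : ℝ) := by
    have : 0 < P ^ 2 / 2 ^ Nat.log 2 r := by omega
    exact_mod_cast this
  have h5 : ((P ^ 2 / 2 ^ Nat.log 2 r : ℕ) : ℝ) ≤ (P : ℝ) ^ 2 / 2 ^ Nat.log 2 r := by
    have := @Nat.cast_div_le ℝ _ _ _ (P ^ 2) (2 ^ Nat.log 2 r)
    push_cast at this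
    exact this
  have h6 : (r : ℝ) ≤ 2 ^ Nat.log 2 r * 2 := by
    have := Nat.lt_pow_succ_log_self (b := 2) (by norm_num) r
    rw [Nat.succ_eq_add_one, pow_succ] at this
    exact_mod_cast this.le
  have h7 : (P : ℝ) ^ 2 / 2 ^ Nat.log 2 r ≤ (P : ℝ) ^ 2 / r * 2 := by
    rw [div_mul_eq_mul_div, div_le_div_iff₀ (by positivity) hr]
    nlinarith [sq_nonneg (P : ℝ)]
  calc Real.log ((P ^ 2 / 2 ^ Nat.log 2 r : ℕ) : ℝ) ≤ Real.log ((P : ℝ) ^ 2 / r * 2) :=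
        Real.log_le_log h4 (h5.trans h7)
    _ = 2 * Real.log P - Real.log r + Real.log 2 := by
        rw [Real.log_mul (by positivity) (by norm_num), Real.log_div (by positivity) hr.ne',
          Real.log_pow]
        push_cast
        ring

section core

variable {Ω : Type} [Fintype Ω] {p : Ω → ℝ} (A : Finset ℝ) (L : Ω → Fin 4 → ℝ)
  (v : Fin 3 → Ω → ℝ) (ka kb : Ω → ℝ)

/-- The first ratio. -/
noncomputable def xa (ω : Ω) : ℝ := v 0 ω / (v 2 ω * ka ω)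

/-- The second ratio. -/
noncomputable def xb (ω : Ω) : ℝ := v 1 ω / (v 2 ω * kb ω)

/-- The condition. -/
noncomputable def QQ (ω : Ω) : (Fin 4 → ℝ) × (ℕ × ℕ) :=
  (L ω, (Nat.log 2 (fib (A * A) (xa v ka ω)).card, Nat.log 2 (fib (A * A) (xb v kb ω)).card))

lemma CH_QQ (hp : IsLaw p) {β : Type} (f : Ω → β) :
    CH p L f ≤ CH p (QQ A L v ka kb) f + CH p L (fun ω => (QQ A L v ka kb ω).2) := by
  have h1 : H p (fun ω => (L ω, f ω)) ≤ H p (fun ω => (QQ A L v ka kb ω, f ω)) :=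
    H_mono hp (Det.mk' (fun t => (t.1.1, t.2)) fun ω _ => rfl)
  have h2 : H p (fun ω => (L ω, (QQ A L v ka kb ω).2)) = H p (QQ A L v ka kb) := rfl
  unfold CH
  rw [h2]
  linarith

lemma CH_cls (hp : IsLaw p) :
    CH p L (fun ω => (QQ A L v ka kb ω).2) ≤
      2 * Real.log ((Nat.log 2 (A * A).card : ℝ) + 1) := by
  have hm : ∀ x : ℝ, Nat.log 2 (fib (A * A) x).card ∈ Finset.range (Nat.log 2 (A * A).card + 1) := by
    intro x
    rw [Finset.mem_range]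
    have := Nat.log_mono_right (b := 2) (fib_le (A * A) x)
    omega
  have gc := Pool.Agent.W554.SPX.t_GC p L (fun ω => (QQ A L v ka kb ω).2) (fun _ : Ω => ())
    (fun _ => Finset.range (Nat.log 2 (A * A).card + 1) ×ˢ
      Finset.range (Nat.log 2 (A * A).card + 1)) (fun _ _ => {()}) 0
    (((Nat.log 2 (A * A).card : ℝ) + 1) ^ 2) hp
    (fun ω _ => ⟨Finset.mem_product.2 ⟨hm _, hm _⟩, Finset.mem_singleton_self _⟩) (fun ω _ => by
      simp [sq])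
  rw [Real.log_pow] at gc
  push_cast at gc
  linarith

lemma qq1 (ω : Ω) : (QQ A L v ka kb ω).2.1 = Nat.log 2 (fib (A * A) (xa v ka ω)).card := rfl

lemma qq2 (ω : Ω) : (QQ A L v ka kb ω).2.2 = Nat.log 2 (fib (A * A) (xb v kb ω)).card := rfl

lemma low {x : ℝ} (hx : 1 ≤ (fib (A * A) x).card) :
    2 ^ Nat.log 2 (fib (A * A) x).card ≤ (A * A).card :=
  (Nat.pow_log_le_self 2 (by omega)).trans (fib_le _ _)

theorem std (h1 : S_STD) (hp : IsLaw p) (hA : ∀ a ∈ A, 0 < a)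
    (h0 : ∀ ω, p ω ≠ 0 → v 2 ω ≠ 0 ∧ ka ω ≠ 0 ∧ kb ω ≠ 0)
    (hk : ∀ ω, p ω ≠ 0 → ka ω ∈ A / A ∧ kb ω ∈ A / A)
    (hf : ∀ ω, p ω ≠ 0 → 1 ≤ (fib (A * A) (xa v ka ω)).card ∧
      1 ≤ (fib (A * A) (xb v kb ω)).card)
    (hL : ∀ ω, p ω ≠ 0 → L ω 0 ≠ L ω 3 ∧ L ω 1 ≠ L ω 3 ∧ L ω 2 ≠ L ω 3)
    (hr : ∀ ω, p ω ≠ 0 → (L ω 0 - L ω 3) * v 0 ω + (L ω 1 - L ω 3) * v 1 ω =
      (L ω 2 - L ω 3) * v 2 ω) :
    3 * CH p (QQ A L v ka kb) (fun ω => (((lin (L ω) (ka ω, kb ω)).1,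
      (lin (L ω) (ka ω, kb ω)).2), (xa v ka ω, xb v kb ω))) ≤
      2 * CH p (QQ A L v ka kb) (fun ω => ((lin (L ω) (ka ω, kb ω)).1,
      (lin (L ω) (ka ω, kb ω)).2)) +
      2 * ∑ ω, p ω * (Real.log (sz (A * A).card (QQ A L v ka kb ω).2.1) +
        Real.log (sz (A * A).card (QQ A L v ka kb ω).2.2)) + Cst ((A * A).card ^ 2) := by
  refine h1 p (QQ A L v ka kb) (xa v ka) (xb v kb) (fun ω => (lin (L ω) (ka ω, kb ω)).1)
    (fun ω => (lin (L ω) (ka ω, kb ω)).2)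
    (fun q => sz (A * A).card q.2.1) (fun q => sz (A * A).card q.2.2) ((A * A).card ^ 2)
    (fun q => cls A q.2.1) (fun q => cls A q.2.2) (LL A) hp
    (fun q => cls_card hA _) (fun q => cls_card hA _) (fun q => LL_card hA q)
    (fun q => Nat.div_le_self _ _) ?_
  intro ω hω
  obtain ⟨v2, a0, b0⟩ := h0 ω hω
  obtain ⟨l0, l1, l2⟩ := hL ω hω
  obtain ⟨f0, f1⟩ := hf ω hω
  have l0' := sub_ne_zero.2 l0
  have l1' := sub_ne_zero.2 l1
  refine ⟨mem_cls hA f0, mem_cls hA f1, ?_, ?_, ?_⟩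
  · show -((L ω 0 - L ω 3) / (L ω 1 - L ω 3)) * (ka ω / kb ω) ≠ 0
    exact mul_ne_zero (neg_ne_zero.2 (div_ne_zero l0' l1')) (div_ne_zero a0 b0)
  · show v 1 ω / (v 2 ω * kb ω) = -((L ω 0 - L ω 3) / (L ω 1 - L ω 3)) * (ka ω / kb ω) *
      (v 0 ω / (v 2 ω * ka ω)) + (L ω 2 - L ω 3) / (L ω 1 - L ω 3) / kb ω
    have r := hr ω hω
    field_simp
    linear_combination r
  · have : LL A (QQ A L v ka kb ω) = ((A / A) ×ˢ (A / A)).image (lin (L ω)) :=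
      if_pos ⟨low A f0, low A f1⟩
    rw [this]
    exact Finset.mem_image.2 ⟨(ka ω, kb ω), Finset.mem_product.2 (hk ω hω), rfl⟩

theorem logs (hp : IsLaw p) (hf : ∀ ω, p ω ≠ 0 → 1 ≤ (fib (A * A) (xa v ka ω)).card ∧
      1 ≤ (fib (A * A) (xb v kb ω)).card) :
    ∑ ω, p ω * (Real.log (sz (A * A).card (QQ A L v ka kb ω).2.1) +
        Real.log (sz (A * A).card (QQ A L v ka kb ω).2.2)) ≤
      4 * Real.log (A * A).card + 2 * Real.log 2 -
        ∑ ω, p ω * Real.log ((fib (A * A) (xa v ka ω)).card : ℝ) -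
        ∑ ω, p ω * Real.log ((fib (A * A) (xb v kb ω)).card : ℝ) := by
  have e : 4 * Real.log (A * A).card + 2 * Real.log 2 =
      ∑ ω, p ω * (4 * Real.log (A * A).card + 2 * Real.log 2) := by
    rw [← Finset.sum_mul, hp.total, one_mul]
  rw [e, ← Finset.sum_sub_distrib, ← Finset.sum_sub_distrib]
  refine Finset.sum_le_sum fun ω _ => ?_
  by_cases hω : p ω = 0
  · rw [hω, zero_mul, zero_mul, zero_mul, zero_mul]; norm_num
  obtain ⟨f0, f1⟩ := hf ω hω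
  have g0 := log_size f0 (fib_le (A * A) _)
  have g1 := log_size f1 (fib_le (A * A) _)
  rw [qq1, qq2, ← mul_sub, ← mul_sub]
  refine mul_le_mul_of_nonneg_left ?_ (hp.nonneg ω)
  linarith

theorem dets (hp : IsLaw p) (h0 : ∀ ω, p ω ≠ 0 → v 2 ω ≠ 0 ∧ ka ω ≠ 0 ∧ kb ω ≠ 0)
    (hL : ∀ ω, p ω ≠ 0 → L ω 0 ≠ L ω 3 ∧ L ω 1 ≠ L ω 3 ∧ L ω 2 ≠ L ω 3) :
    CH p (QQ A L v ka kb) (fun ω => (v 0 ω / v 2 ω, (ka ω, kb ω))) ≤
      CH p (QQ A L v ka kb) (fun ω => (((lin (L ω) (ka ω, kb ω)).1,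
      (lin (L ω) (ka ω, kb ω)).2), (xa v ka ω, xb v kb ω))) := by
  refine CH_mono hp (Det.mk' (fun t =>
    ((-t.2.1.1 * ((t.1.1 2 - t.1.1 3) / (t.1.1 1 - t.1.1 3) / t.2.1.2) *
      ((t.1.1 1 - t.1.1 3) / (t.1.1 0 - t.1.1 3))) * t.2.2.1,
    (-t.2.1.1 * ((t.1.1 2 - t.1.1 3) / (t.1.1 1 - t.1.1 3) / t.2.1.2) *
      ((t.1.1 1 - t.1.1 3) / (t.1.1 0 - t.1.1 3)),
      (t.1.1 2 - t.1.1 3) / (t.1.1 1 - t.1.1 3) / t.2.1.2))) ?_)
  intro ω hω
  obtain ⟨v2, a0, b0⟩ := h0 ω hω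
  obtain ⟨l0, l1, l2⟩ := hL ω hω
  have l0' := sub_ne_zero.2 l0
  have l1' := sub_ne_zero.2 l1
  have l2' := sub_ne_zero.2 l2
  have e1 : (L ω 2 - L ω 3) / (L ω 1 - L ω 3) / ((L ω 2 - L ω 3) / (L ω 1 - L ω 3) / kb ω) =
      kb ω := by
    field_simp
  have e2 : -(-((L ω 0 - L ω 3) / (L ω 1 - L ω 3)) * (ka ω / kb ω)) * kb ω *
      ((L ω 1 - L ω 3) / (L ω 0 - L ω 3)) = ka ω := by
    field_simp
  have e3 : ka ω * (v 0 ω / (v 2 ω * ka ω)) = v 0 ω / v 2 ω := by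
    field_simp
  show (v 0 ω / v 2 ω, (ka ω, kb ω)) =
    ((-(-((L ω 0 - L ω 3) / (L ω 1 - L ω 3)) * (ka ω / kb ω)) *
      ((L ω 2 - L ω 3) / (L ω 1 - L ω 3) / ((L ω 2 - L ω 3) / (L ω 1 - L ω 3) / kb ω)) *
      ((L ω 1 - L ω 3) / (L ω 0 - L ω 3))) * (v 0 ω / (v 2 ω * ka ω)),
    (-(-((L ω 0 - L ω 3) / (L ω 1 - L ω 3)) * (ka ω / kb ω)) *
      ((L ω 2 - L ω 3) / (L ω 1 - L ω 3) / ((L ω 2 - L ω 3) / (L ω 1 - L ω 3) / kb ω)) *
      ((L ω 1 - L ω 3) / (L ω 0 - L ω 3)),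
      (L ω 2 - L ω 3) / (L ω 1 - L ω 3) / ((L ω 2 - L ω 3) / (L ω 1 - L ω 3) / kb ω)))
  rw [e1, e2, e3]

theorem core (h1 : S_STD) (hp : IsLaw p) (hA : ∀ a ∈ A, 0 < a)
    (h0 : ∀ ω, p ω ≠ 0 → v 2 ω ≠ 0 ∧ ka ω ≠ 0 ∧ kb ω ≠ 0)
    (hk : ∀ ω, p ω ≠ 0 → ka ω ∈ A / A ∧ kb ω ∈ A / A)
    (hf : ∀ ω, p ω ≠ 0 → 1 ≤ (fib (A * A) (xa v ka ω)).card ∧
      1 ≤ (fib (A * A) (xb v kb ω)).card)
    (hL : ∀ ω, p ω ≠ 0 → L ω 0 ≠ L ω 3 ∧ L ω 1 ≠ L ω 3 ∧ L ω 2 ≠ L ω 3)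
    (hr : ∀ ω, p ω ≠ 0 → (L ω 0 - L ω 3) * v 0 ω + (L ω 1 - L ω 3) * v 1 ω =
      (L ω 2 - L ω 3) * v 2 ω) :
    3 * CH p L (fun ω => (v 0 ω / v 2 ω, (ka ω, kb ω))) +
      2 * ∑ ω, p ω * Real.log ((fib (A * A) (xa v ka ω)).card : ℝ) +
      2 * ∑ ω, p ω * Real.log ((fib (A * A) (xb v kb ω)).card : ℝ) ≤
      2 * CH p L (fun ω => (ka ω, kb ω)) + 8 * Real.log (A * A).card + Er (A * A).card := by
  have st := std A L v ka kb h1 hp hA h0 hk hf hL hr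
  have hs := logs A L v ka kb hp hf
  have hmono := dets A L v ka kb hp h0 hL
  have h31 : Det p (QQ A L v ka kb) L := fun x y _ _ hxy => congrArg Prod.fst hxy
  have h32 : Det p (fun ω => (L ω, (ka ω, kb ω))) (fun ω => ((lin (L ω) (ka ω, kb ω)).1,
      (lin (L ω) (ka ω, kb ω)).2)) := by
    intro x y _ _ hxy
    have e1 : L x = L y := congrArg Prod.fst hxy
    have e2 : (ka x, kb x) = (ka y, kb y) := congrArg Prod.snd hxy
    show ((lin (L x) (ka x, kb x)).1, (lin (L x) (ka x, kb x)).2) =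
      ((lin (L y) (ka y, kb y)).1, (lin (L y) (ka y, kb y)).2)
    rw [e1, e2]
  have h3 : CH p (QQ A L v ka kb) (fun ω => ((lin (L ω) (ka ω, kb ω)).1,
      (lin (L ω) (ka ω, kb ω)).2)) ≤ CH p L (fun ω => (ka ω, kb ω)) :=
    le_trans (CH_anti hp h31) (CH_mono hp h32)
  have h4 := CH_QQ (p := p) A L v ka kb hp (fun ω => (v 0 ω / v 2 ω, (ka ω, kb ω)))
  have h5 := CH_cls (p := p) A L v ka kb hp
  have h6 : Er (A * A).card = 4 * Real.log 2 + Cst ((A * A).card ^ 2) +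
    6 * Real.log ((Nat.log 2 (A * A).card : ℝ) + 1) := rfl
  rw [h6]
  generalize CH p (QQ A L v ka kb) (fun ω => (((lin (L ω) (ka ω, kb ω)).1,
      (lin (L ω) (ka ω, kb ω)).2), (xa v ka ω, xb v kb ω))) = t1 at *
  generalize CH p (QQ A L v ka kb) (fun ω => ((lin (L ω) (ka ω, kb ω)).1,
      (lin (L ω) (ka ω, kb ω)).2)) = t2 at *
  generalize CH p (QQ A L v ka kb) (fun ω => (v 0 ω / v 2 ω, (ka ω, kb ω))) = t3 at *
  generalize CH p L (fun ω => (QQ A L v ka kb ω).2) = t4 at *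
  generalize Cst ((A * A).card ^ 2) = t5 at *
  linarith

end core

/-- The entropy of the three ratios. -/
lemma three {Ω : Type} [Fintype Ω] {p : Ω → ℝ} (hp : IsLaw p) (L : Ω → Fin 4 → ℝ)
    (v : Fin 3 → Ω → ℝ) (ka kb : Ω → ℝ) (ca cb : ℝ)
    (hG : H p (fun ω => ((L ω, zz v ω), (ka ω, kb ω))) = H p (fun ω => (L ω, zz v ω)) + ca + cb) :
    CH p L (fun ω => v 0 ω / v 2 ω) + ca + cb ≤
      CH p L (fun ω => (v 0 ω / v 2 ω, (ka ω, kb ω))) := by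
  have s2 := submod' hp (f := fun ω => (L ω, zz v ω))
    (g := fun ω => (L ω, (v 0 ω / v 2 ω, (ka ω, kb ω))))
    (h := fun ω => (L ω, v 0 ω / v 2 ω)) (k := fun ω => ((L ω, zz v ω), (ka ω, kb ω)))
    (Det.mk' (fun t => (t.1, t.2 0 / t.2 2)) fun ω _ => rfl)
    (Det.mk' (fun t => (t.1, t.2.1)) fun ω _ => rfl)
    (Det.mk' (fun t => (t.1, t.2.2.2)) fun ω _ => rfl)
  unfold CH
  linarith

lemma sum_fst {Ω₁ Ω₂ γ : Type} [Fintype Ω₁] [Fintype Ω₂] {p : Ω₁ → ℝ} {q : Ω₂ → ℝ}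
    {f : Ω₁ → γ} {g : Ω₂ → γ} (hp : IsLaw p) (hfg : ∀ c, im p f c = im q g c) (F : Ω₁ → ℝ) :
    ∑ z, glue p q f g z * F z.1 = ∑ x, p x * F x := by
  rw [← sum_im_mul (glue p q f g) Prod.fst F, glue_fst hp hfg]

lemma sum_snd {Ω₁ Ω₂ γ : Type} [Fintype Ω₁] [Fintype Ω₂] {p : Ω₁ → ℝ} {q : Ω₂ → ℝ}
    {f : Ω₁ → γ} {g : Ω₂ → γ} (hq : IsLaw q) (hfg : ∀ c, im p f c = im q g c) (F : Ω₂ → ℝ) :
    ∑ z, glue p q f g z * F z.2 = ∑ x, q x * F x := by
  rw [← sum_im_mul (glue p q f g) Prod.snd F, glue_snd hq hfg]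

theorem tFI2 (h1 : S_STD) : S_FI2 := by
  intro Ω _ A p l u n K₀ D₀ K₁ D₁ hA hB e0 e1
  obtain ⟨Ωa, _, pa, La, va, ka, hpa, ia, sa, ca, ka', da⟩ := e0
  obtain ⟨Ωb, _, pb, Lb, vb, kb, hpb, ib, sb, cb, kb', db⟩ := e1
  have hfg : ∀ c, im pa (fun ω => (La ω, zz va ω)) c = im pb (fun ω => (Lb ω, zz vb ω)) c :=
    fun c => (ia c).trans (ib c).symm
  obtain ⟨P, hP⟩ : ∃ P, P = glue pa pb (fun ω => (La ω, zz va ω)) (fun ω => (Lb ω, zz vb ω)) :=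
    ⟨_, rfl⟩
  have hPl : IsLaw P := by
    rw [hP]
    exact glue_law hpa hpb hfg
  -- the support
  have hsup : ∀ z, P z ≠ 0 → pa z.1 ≠ 0 ∧ pb z.2 ≠ 0 ∧ La z.1 = Lb z.2 ∧
      ∀ i, va i z.1 = vb i z.2 := by
    intro z hz
    rw [hP] at hz
    obtain ⟨e, z1, z2⟩ := glue_supp hz
    exact ⟨z1, z2, congrArg Prod.fst e, fun i => congrFun (congrArg Prod.snd e) i⟩
  have hbase : ∀ x, pa x ≠ 0 → va 2 x ≠ 0 ∧
      (La x 0 ≠ La x 3 ∧ La x 1 ≠ La x 3 ∧ La x 2 ≠ La x 3) ∧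
      (La x 0 - La x 3) * va 0 x + (La x 1 - La x 3) * va 1 x = (La x 2 - La x 3) * va 2 x := by
    intro x hx
    obtain ⟨ω, hω, e⟩ := supp_of_im hpa ia hx
    have e1 : zz l ω = La x := congrArg Prod.fst e
    have e2 : zz u ω = zz va x := congrArg Prod.snd e
    have f1 : ∀ i, l i ω = La x i := fun i => congrFun e1 i
    have f2 : ∀ i, u i ω = va i x := fun i => congrFun e2 i
    refine ⟨?_, ⟨?_, ?_, ?_⟩, ?_⟩
    · rw [← f2]
      have := hB.mem ω hω 2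
      exact (hA _ (Finset.mem_filter.1 this).1).ne'
    · rw [← f1, ← f1]
      exact hB.ne ω hω 0
    · rw [← f1, ← f1]
      exact hB.ne ω hω 1
    · rw [← f1, ← f1]
      exact hB.ne ω hω 2
    · rw [← f1, ← f1, ← f1, ← f1, ← f2, ← f2, ← f2]
      exact hB.rel ω hω
  -- entropies
  have E0 : H P (fun z => (La z.1, zz va z.1)) = H pa (fun ω => (La ω, zz va ω)) := by
    rw [hP]
    exact H_glue_fst hpa hfg (fun ω => (La ω, zz va ω))
  have Eg : H pb (fun ω => (Lb ω, zz vb ω)) = H pa (fun ω => (La ω, zz va ω)) :=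
    (H_eq_of_im_eq hfg).symm
  have Ra : H pa (fun ω => ((La ω, zz va ω), ka ω)) =
      H pa (fun ω => (La ω, zz va ω)) + CH pa La ka := by
    have : H pa (fun ω => ((La ω, zz va ω), ka ω)) =
        H pa (fun ω => (La ω, (zz va ω, ka ω))) :=
      H_congr hpa (Det.mk' (fun t => (t.1.1, (t.1.2, t.2))) fun ω _ => rfl)
        (Det.mk' (fun t => ((t.1, t.2.1), t.2.2)) fun ω _ => rfl)
    rw [this]
    unfold CH at ca ⊢
    linarith
  have Rb : H pb (fun ω => ((Lb ω, zz vb ω), kb ω)) =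
      H pb (fun ω => (Lb ω, zz vb ω)) + CH pb Lb kb := by
    have : H pb (fun ω => ((Lb ω, zz vb ω), kb ω)) =
        H pb (fun ω => (Lb ω, (zz vb ω, kb ω))) :=
      H_congr hpb (Det.mk' (fun t => (t.1.1, (t.1.2, t.2))) fun ω _ => rfl)
        (Det.mk' (fun t => ((t.1, t.2.1), t.2.2)) fun ω _ => rfl)
    rw [this]
    unfold CH at cb ⊢
    linarith
  have G1 : H P (fun z => (((La z.1, zz va z.1), ka z.1), ((Lb z.2, zz vb z.2), kb z.2))) =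
      H pa (fun ω => ((La ω, zz va ω), ka ω)) +
      H pb (fun ω => ((Lb ω, zz vb ω), kb ω)) - H pa (fun ω => (La ω, zz va ω)) := by
    rw [hP]
    exact H_glue hpa hpb hfg (u := fun ω => ((La ω, zz va ω), ka ω))
      (v := fun ω => ((Lb ω, zz vb ω), kb ω)) (Det.fst _ _ _) (Det.fst _ _ _)
  have eqz : ∀ z : Ωa × Ωb, P z ≠ 0 → (La z.1 = Lb z.2 ∧ zz va z.1 = zz vb z.2) := fun z hz =>
    ⟨(hsup z hz).2.2.1, funext fun i => (hsup z hz).2.2.2 i⟩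
  have C1 : H P (fun z => ((La z.1, zz (fun i z => va i z.1) z), (ka z.1, kb z.2))) =
      H P (fun z => (((La z.1, zz va z.1), ka z.1), ((Lb z.2, zz vb z.2), kb z.2))) :=
    H_congr hPl
      (Det.mk' (fun t => ((t.1, t.2.1), (t.1, t.2.2))) fun z hz => by
        obtain ⟨a1, a2⟩ := eqz z hz
        show _ = (((La z.1, zz va z.1), ka z.1), ((La z.1, zz va z.1), kb z.2))
        rw [a1, a2])
      (Det.mk' (fun t => (t.1.1, (t.1.2, t.2.2))) fun z _ => rfl)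
  have C3 : CH P (fun z => La z.1) (fun z => ka z.1) = CH pa La ka := by
    unfold CH
    rw [hP, ← H_glue_fst hpa hfg La, ← H_glue_fst hpa hfg (fun ω => (La ω, ka ω))]
  have C4 : CH P (fun z => La z.1) (fun z => kb z.2) = CH pb Lb kb := by
    have : CH P (fun z => La z.1) (fun z => kb z.2) = CH P (fun z => Lb z.2) (fun z => kb z.2) :=
      CH_congr hPl (Det.mk' (fun t => t) fun z hz => ((eqz z hz).1).symm)
        (Det.mk' (fun t => t) fun z hz => (eqz z hz).1) (Det.snd _ _ _) (Det.snd _ _ _)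
    rw [this]
    unfold CH
    rw [hP, ← H_glue_snd hpb hfg Lb, ← H_glue_snd hpb hfg (fun ω => (Lb ω, kb ω))]
  have A1 := three hPl (fun z => La z.1) (fun i z => va i z.1) (fun z => ka z.1)
    (fun z => kb z.2) (CH pa La ka) (CH pb Lb kb) (by
      rw [C1, G1, Ra, Rb, Eg]
      have : H P (fun z => (La z.1, zz (fun i z => va i z.1) z)) =
        H pa (fun ω => (La ω, zz va ω)) := E0
      rw [this]
      ring)
  have A2 := core A (fun z : Ωa × Ωb => La z.1) (fun i z => va i z.1) (fun z => ka z.1)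
    (fun z => kb z.2) h1 hPl hA
    (fun z hz => by
      obtain ⟨z1, z2, -, -⟩ := hsup z hz
      exact ⟨(hbase z.1 z1).1, (sa z.1 z1).1, (sb z.2 z2).1⟩)
    (fun z hz => by
      obtain ⟨z1, z2, -, -⟩ := hsup z hz
      exact ⟨(sa z.1 z1).2.1, (sb z.2 z2).2.1⟩)
    (fun z hz => by
      obtain ⟨z1, z2, -, hv⟩ := hsup z hz
      refine ⟨(sa z.1 z1).2.2.2.2, ?_⟩
      show 1 ≤ (fib (A * A) (va 1 z.1 / (va 2 z.1 * kb z.2))).card
      rw [hv 1, hv 2]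
      exact (sb z.2 z2).2.2.2.2)
    (fun z hz => (hbase z.1 (hsup z hz).1).2.1) (fun z hz => (hbase z.1 (hsup z hz).1).2.2)
  have A3 : CH P (fun z => La z.1) (fun z => va 0 z.1 / va 2 z.1) =
      CH p (zz l) (fun ω => u 0 ω / u 2 ω) := by
    have h3 : ∀ a, im P (fun z => (La z.1, zz va z.1)) a = im p (fun ω => (zz l ω, zz u ω)) a := by
      intro a
      rw [hP]
      exact (im_glue_fst hpa hfg (fun ω => (La ω, zz va ω)) a).trans (ia a)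
    exact CH_of_im' h3 (fun t => t.2 0 / t.2 2)
  have A4 : CH P (fun z => La z.1) (fun z => (ka z.1, kb z.2)) ≤ CH pa La ka + CH pb Lb kb := by
    rw [← C3, ← C4]
    exact CH_subadd hPl (Det.snd _ _ _)
  have A5 : ∑ z, P z * Real.log ((fib (A * A) (xa (fun i (z : Ωa × Ωb) => va i z.1)
      (fun z => ka z.1) z)).card : ℝ) =
      ∑ x, pa x * Real.log ((fib (A * A) (va 0 x / (va 2 x * ka x))).card : ℝ) := by
    rw [hP]
    exact sum_fst hpa hfg (fun x => Real.log ((fib (A * A) (va 0 x / (va 2 x * ka x))).card : ℝ))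
  have A6 : ∑ z, P z * Real.log ((fib (A * A) (xb (fun i (z : Ωa × Ωb) => va i z.1)
      (fun z => kb z.2) z)).card : ℝ) =
      ∑ x, pb x * Real.log ((fib (A * A) (vb 1 x / (vb 2 x * kb x))).card : ℝ) := by
    have : ∑ z, P z * Real.log ((fib (A * A) (xb (fun i (z : Ωa × Ωb) => va i z.1)
      (fun z => kb z.2) z)).card : ℝ) =
        ∑ z, P z * Real.log ((fib (A * A) (vb 1 z.2 / (vb 2 z.2 * kb z.2))).card : ℝ) := by
      refine Finset.sum_congr rfl fun z _ => ?_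
      by_cases hz : P z = 0
      · rw [hz, zero_mul, zero_mul]
      obtain ⟨-, -, -, hv⟩ := hsup z hz
      show P z * Real.log ((fib (A * A) (va 1 z.1 / (va 2 z.1 * kb z.2))).card : ℝ) = _
      rw [hv 1, hv 2]
    rw [this, hP]
    exact sum_snd hpb hfg (fun x => Real.log ((fib (A * A) (vb 1 x / (vb 2 x * kb x))).card : ℝ))
  rw [A5, A6] at A2
  rw [A3] at A1
  linarith

end Pool.Agent.W612.SPY
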